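import Mathlib
import Pool.Agent.Helper60.CO.Comp
import Pool.Agent.Helper60.CO.Loc2

/-!
# The corona problem on strictly pseudoconvex domains of `ℂ²`: localisation to the connected components
of cells

`D` is an arbitrary bounded strictly pseudoconvex open subset of `ℂ²` (boundary of class `C²`),
`F_1, …, F_N` are arbitrary bounded holomorphic functions on `D`. A generator at the boundary point `p`
is a function `u ∘ ψ`, where `u` is any bounded holomorphic function on the unit disc, and `ψ` is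
holomorphic near `p` and `|ψ| < 1` on `D` near `p`. A cell at `p` is the set of the points of `D` near
`p` at which finitely many generators `s` are close to given values `λ(s)`. A cell can have infinitely
many components (for instance if `u` is a Blaschke product with zeros accumulating at `ψ(p)`).

The equation `∑ F_j g_j = 1` has bounded holomorphic solutions on `D` if and only if the `F_j` have no
common zeros in `D`, and for every boundary point `p` and all values `λ` there is a cell such that the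
equation can be solved on every connected component `U` of the cell, with a bound which does not
depend on `U`; nothing is required of the solutions on different components, and they need not extend
to a larger subset of `D`. In particular it suffices that on each component `U`
* one of the functions, which can depend on `U`, is bounded from below by `ε`, or
* `∑ |F_j|² ≥ c ≥ ε` on `U`, and the total area of the plane sets `F_j(U)` is at most `π (c - ε)`,
and, more generally, it suffices that finitely many elements of the ideal generated by the `F_j` on `U`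
have one of these properties.

Proof. If there are no solutions, there is a character `χ` of `H^∞(D)` with `χ(F_j) = 0`; it lies over a
boundary point `p` and extends to the functions which are bounded and holomorphic on `D` near `p`. Let
`λ(s) = χ(s)`. The solutions on the components define a solution on the cell. One function
`s - χ(s) = u ∘ ψ - χ(s)` after the other is removed from the definition of the cell: a
solution on the set where finitely many of these functions and `u ∘ ψ - χ(s)` are small is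
corrected, by an extension theorem for bounded holomorphic functions from sets of this kind and by the
solution of a `∂̄` equation in the variable `ψ` (Carleson's method), to a solution, with the additional
function `u ∘ ψ - χ(s)`, on the set where the finitely many functions are small. This gives a solution near
`p` for the `F_j` and the functions `s - χ(s)`, a contradiction. (`M4`, `MU`, `MV`, `MR`, `ML`, `MT`: the
method of the starting library for one function `G` is extended to tuples.)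
On a component `U` with small areas: by the inequality of Ahlfors and Beurling, `conj w` is at distance at
most `√(A / π)` from a holomorphic function on a plane open set of area `A` (`Area5`), and the sets `F_j(U)`
are open or points.
-/

set_option autoImplicit false

open MeasureTheory Metric Set Filter Topology

namespace Pool.Agent.Results.MP_ca0fc2_an.ComponentsOfCells

/-- `D` is a bounded strictly pseudoconvex open set with boundary of class `C²`: `D = {z ∈ O | ρ z < 0}`
for some `ρ` of class `C²` on a neighbourhood `O` of the closure of `D`, and at every boundary point `p`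
the differential of `ρ` is not zero and the Levi form of `ρ` is positive on the complex tangent
vectors `v ≠ 0` (`dρ(v) = dρ(iv) = 0`). The quantity `D²ρ(v, v) + D²ρ(iv, iv)` is
`4 ∑ ∂²ρ/∂z_j∂z̄_k v_j v̄_k`. -/
structure StrictlyPseudoconvex (D : Set (ℂ × ℂ)) : Prop where
  bounded : Bornology.IsBounded D
  defining : ∃ (O : Set (ℂ × ℂ)) (ρ : ℂ × ℂ → ℝ), IsOpen O ∧ closure D ⊆ O ∧ ContDiffOn ℝ 2 ρ O ∧
    D = {z | z ∈ O ∧ ρ z < 0} ∧ ∀ p ∈ frontier D, fderiv ℝ ρ p ≠ 0 ∧
      ∀ v : ℂ × ℂ, v ≠ 0 → fderiv ℝ ρ p v = 0 → fderiv ℝ ρ p (Complex.I • v) = 0 →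
        0 < fderiv ℝ (fderiv ℝ ρ) p v v + fderiv ℝ (fderiv ℝ ρ) p (Complex.I • v) (Complex.I • v)

/-- `g` is a bounded holomorphic function on `A`. -/
def HInfty (A : Set (ℂ × ℂ)) (g : ℂ × ℂ → ℂ) : Prop :=
  DifferentiableOn ℂ g A ∧ ∃ C : ℝ, ∀ z ∈ A, ‖g z‖ ≤ C

/-- `s` is a generator at `p`: `s = u ∘ ψ`, where `u` is bounded and holomorphic on the unit disc, `ψ` is
holomorphic in a neighbourhood of `p` and `|ψ| < 1` on `D` near `p`. -/
def Generator (D : Set (ℂ × ℂ)) (p : ℂ × ℂ) (s : ℂ × ℂ → ℂ) : Prop :=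
  ∃ (u : ℂ → ℂ) (ψ : ℂ × ℂ → ℂ), DifferentiableOn ℂ u (ball 0 1) ∧
    (∃ C : ℝ, ∀ w ∈ ball (0 : ℂ) 1, ‖u w‖ ≤ C) ∧ AnalyticAt ℂ ψ p ∧
    (∀ᶠ z in 𝓝 p, z ∈ D → ‖ψ z‖ < 1) ∧ ∀ z, s z = u (ψ z)

/-- The cell of the points `z` of `D` with `|z - p| < ε` (maximum norm) and `|s(z) - λ(s)| < ε` for the
finitely many functions `s ∈ T`. -/
def cell (D : Set (ℂ × ℂ)) (p : ℂ × ℂ) (T : Finset (ℂ × ℂ → ℂ)) (lam : (ℂ × ℂ → ℂ) → ℂ) (ε : ℝ) :
    Set (ℂ × ℂ) :=
  {z | z ∈ D ∧ z ∈ ball p ε ∧ ∀ s ∈ T, ‖s z - lam s‖ < ε}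

/-- On `U` the function `G` is `∑ F_j H_j` with holomorphic functions `H_j` of modulus at most `C`. -/
def InIdeal (U : Set (ℂ × ℂ)) (C : ℝ) {N : ℕ} (F : Fin N → ℂ × ℂ → ℂ) (G : ℂ × ℂ → ℂ) : Prop :=
  ∃ H : Fin N → ℂ × ℂ → ℂ, (∀ j, DifferentiableOn ℂ (H j) U ∧ ∀ z ∈ U, ‖H j z‖ ≤ C) ∧
    ∀ z ∈ U, G z = ∑ j, F j z * H j z

/-- There are at most `1 / ε` functions `G_i = ∑ F_j H_ij` on `U` with holomorphic `H_ij` of modulus at
most `1 / ε` such that some `|G_i|` is at least `ε` on `U`, or `∑ |G_i|² ≥ c ≥ ε` on `U` and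
the total area of the sets `G_i(U)` is at most `π (c - ε)`. (The choice `G_i = F_i` is possible if
`N ≤ 1 / ε`. If `1 = ∑ F_j H_j` on `U` and `|H_j| ≤ 1 / ε ≥ 1`, the single function `G_1 = 1` has the first
property.) -/
def Good (ε : ℝ) (U : Set (ℂ × ℂ)) {N : ℕ} (F : Fin N → ℂ × ℂ → ℂ) : Prop :=
  ∃ (m : ℕ) (G : Fin m → ℂ × ℂ → ℂ), (m : ℝ) ≤ 1 / ε ∧ (∀ i, InIdeal U (1 / ε) F (G i)) ∧
    ((∃ i, ∀ z ∈ U, ε ≤ ‖G i z‖) ∨
      ∃ c : ℝ, ε ≤ c ∧ (∀ z ∈ U, c ≤ ∑ i, ‖G i z‖ ^ 2) ∧
        ∑ i, volume (G i '' U) ≤ ENNReal.ofReal (Real.pi * (c - ε)))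

theorem tangent {ρ : ℂ × ℂ → ℝ} {p v : ℂ × ℂ} (h : Pool.Agent.P157G.dd ρ p v = 0) :
    fderiv ℝ ρ p v = 0 ∧ fderiv ℝ ρ p (Complex.I • v) = 0 := by
  have h1 : ∀ u, 2 * (Pool.Agent.P157G.dd ρ p u).re = fderiv ℝ ρ p u := fun u =>
    Pool.Agent.P157G.G5z_lin (fderiv ℝ ρ p) u
  have h2 : Pool.Agent.P157G.dd ρ p (Complex.I • v) = Complex.I * Pool.Agent.P157G.dd ρ p v := by
    unfold Pool.Agent.P157G.dd
    simp only [Prod.smul_fst, Prod.smul_snd, smul_eq_mul]
    ring
  refine ⟨?_, ?_⟩
  · rw [← h1 v, h]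
    simp
  · rw [← h1, h2, h]
    simp

/-- cells of small radius are open -/
theorem cell_open {D : Set (ℂ × ℂ)} (hD : IsOpen D) {p : ℂ × ℂ} {T : Finset (ℂ × ℂ → ℂ)}
    (hT : ∀ s ∈ T, Generator D p s) (lam : (ℂ × ℂ → ℂ) → ℂ) :
    ∃ ε₀ : ℝ, 0 < ε₀ ∧ ∀ ε, ε ≤ ε₀ → IsOpen (cell D p T lam ε) := by
  have hev : ∀ᶠ x in 𝓝 p, ∀ s ∈ T, x ∈ D → ContinuousAt s x := by
    refine (Finset.eventually_all T).2 fun s hs => ?_
    obtain ⟨u, ψ, h1, h2, h3, h4, h5⟩ := hT s hs
    filter_upwards [h3.eventually_analyticAt, h4] with x hx1 hx2 hxD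
    have h6 : s = fun z => u (ψ z) := funext h5
    rw [h6]
    have h7 : ContinuousAt u (ψ x) := (h1.differentiableAt (isOpen_ball.mem_nhds
      (by rw [mem_ball_zero_iff]; exact hx2 hxD))).continuousAt
    exact ContinuousAt.comp (g := u) h7 hx1.continuousAt
  obtain ⟨ε₀, hε₀, hε₀s⟩ := Metric.eventually_nhds_iff_ball.1 hev
  refine ⟨ε₀, hε₀, fun ε hε => isOpen_iff_mem_nhds.2 ?_⟩
  rintro x ⟨hx1, hx2, hx3⟩
  have h1 : ∀ᶠ y in 𝓝 x, ∀ s ∈ T, ‖s y - lam s‖ < ε := by
    refine (Finset.eventually_all T).2 fun s hs => ?_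
    have h2 := (hε₀s x (ball_subset_ball hε hx2) s hs hx1)
    exact ((h2.sub continuousAt_const).norm).eventually (gt_mem_nhds (hx3 s hs))
  filter_upwards [hD.mem_nhds hx1, isOpen_ball.mem_nhds hx2, h1] with y h2 h3 h4
  exact ⟨h2, h3, h4⟩

/-- **The corona problem on strictly pseudoconvex domains of `ℂ²`: localisation to the components of
cells.** -/
theorem result {D : Set (ℂ × ℂ)} (hD : StrictlyPseudoconvex D) (N : ℕ) (F : Fin N → ℂ × ℂ → ℂ)
    (hF : ∀ j, HInfty D (F j)) :
    (∃ g : Fin N → ℂ × ℂ → ℂ, (∀ j, HInfty D (g j)) ∧ ∀ z ∈ D, ∑ j, F j z * g j z = 1) ↔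
      (∀ z ∈ D, ∃ j, F j z ≠ 0) ∧
      ∀ p ∈ frontier D, ∀ lam : (ℂ × ℂ → ℂ) → ℂ, ∃ T : Finset (ℂ × ℂ → ℂ),
        (∀ s ∈ T, Generator D p s) ∧ ∃ ε : ℝ, 0 < ε ∧
          ∀ z ∈ cell D p T lam ε, Good ε (connectedComponentIn (cell D p T lam ε) z) F := by
  constructor
  · rintro ⟨g, hg, hgs⟩
    refine ⟨fun z hz => ?_, fun p _ lam => ?_⟩
    · by_contra hcon
      push Not at hcon
      have h1 := hgs z hz
      simp only [hcon, zero_mul, Finset.sum_const_zero] at h1
      exact zero_ne_one h1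
    · choose C hC using fun j => (hg j).2
      obtain ⟨B, hB1, hB⟩ : ∃ B : ℝ, 1 ≤ B ∧ ∀ j, ∀ z ∈ D, ‖g j z‖ ≤ B := by
        refine ⟨∑ j, |C j| + 1, ?_, fun j z hz => ?_⟩
        · have : 0 ≤ ∑ j, |C j| := Finset.sum_nonneg fun _ _ => abs_nonneg _
          linarith
        · have h1 : |C j| ≤ ∑ j, |C j| := Finset.single_le_sum (f := fun j => |C j|)
            (fun _ _ => abs_nonneg _) (Finset.mem_univ j)
          have h2 := (hC j z hz).trans (le_abs_self _)
          linarith
      have hB0 : 0 < B := by linarith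
      refine ⟨∅, by simp, 1 / B, by positivity, fun z _ => ⟨1, fun _ _ => 1, ?_, fun _ => ?_,
        Or.inl ⟨0, fun z _ => ?_⟩⟩⟩
      · rw [one_div_one_div]
        simpa using hB1
      · have hsub : ∀ x ∈ connectedComponentIn (cell D p ∅ lam (1 / B)) z, x ∈ D := fun x hx =>
          (connectedComponentIn_subset _ _ hx).1
        refine ⟨g, fun j => ⟨(hg j).1.mono hsub, fun x hx => ?_⟩, fun x hx =>
          (hgs x (hsub x hx)).symm⟩
        rw [one_div_one_div]
        exact hB j x (hsub x hx)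
      · rw [norm_one, div_le_one hB0]
        exact hB1
  · rintro ⟨h0, hloc⟩
    obtain ⟨O, ρ, hO, hcl, hρ, hDO, hp⟩ := hD.defining
    obtain ⟨ρ', hN, hD'⟩ := Pool.Agent.P157G.nf_of hD.bounded hO hcl hρ hDO
      (fun p hpf => (hp p hpf).1) (fun p hpf v hv hdd => (hp p hpf).2 v hv (tangent hdd).1 (tangent hdd).2)
    subst hD'
    have hDo : IsOpen {x | ρ' x < 0} := isOpen_lt hN.smooth.continuous continuous_const
    choose C hC using fun j => (hF j).2
    obtain ⟨R, hR0, hR⟩ : ∃ R : ℝ, 0 ≤ R ∧ ∀ j, ∀ z ∈ {x | ρ' x < 0}, ‖F j z‖ ≤ R := by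
      refine ⟨∑ j, |C j|, Finset.sum_nonneg fun _ _ => abs_nonneg _, fun j z hz => ?_⟩
      have h1 : |C j| ≤ ∑ j, |C j| := Finset.single_le_sum (f := fun j => |C j|)
        (fun _ _ => abs_nonneg _) (Finset.mem_univ j)
      exact ((hC j z hz).trans (le_abs_self _)).trans h1
    obtain ⟨C', g, hg, hgs⟩ := Pool.Agent.Helper60.CO.loc_main2 hN (F := F)
      (fun j => ⟨C j, (hF j).1, hC j⟩) h0 (fun p hpf lam => by
        obtain ⟨T, hT, ε, hε, h⟩ := hloc p hpf lam
        obtain ⟨ε₀, hε₀, hopen⟩ := cell_open hDo hT lam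
        obtain ⟨ε', hε'0, hε'ε, hε'ε₀⟩ : ∃ ε' : ℝ, 0 < ε' ∧ ε' ≤ ε ∧ ε' ≤ ε₀ :=
          ⟨min ε ε₀, lt_min hε hε₀, min_le_left _ _, min_le_right _ _⟩
        have hWo := hopen ε' hε'ε₀
        have hW : cell {x | ρ' x < 0} p T lam ε' ⊆ cell {x | ρ' x < 0} p T lam ε := fun z hz =>
          ⟨hz.1, ball_subset_ball hε'ε hz.2.1, fun s hs => (hz.2.2 s hs).trans_le hε'ε⟩
        refine ⟨T, hT, ε', hε'0, _, Pool.Agent.Helper60.CO.glue hWo
          (Q := 1 / ε * (1 / ε) * (N * R / ε + √(1 / ε * (N * R / ε) ^ 2) + 1) * (2 / ε))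
          fun z hz => ?_⟩
        obtain ⟨m, G, hm, hG, hGa⟩ := h z (hW hz)
        have hUU : connectedComponentIn (cell {x | ρ' x < 0} p T lam ε') z ⊆
            connectedComponentIn (cell {x | ρ' x < 0} p T lam ε) z := connectedComponentIn_mono z hW
        have hUD : connectedComponentIn (cell {x | ρ' x < 0} p T lam ε') z ⊆ {x | ρ' x < 0} :=
          fun x hx => (connectedComponentIn_subset _ _ hx).1
        choose H hH hGH using hG
        refine Pool.Agent.Helper60.CO.comp_bez hWo.connectedComponentIn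
          isPreconnected_connectedComponentIn (fun j => (hF j).1.mono hUD) hR0
          (fun j x hx => hR j x (hUD hx)) hε hm (G := G) (H := H)
          (fun i j => (hH i j).1.mono hUU) (fun i j x hx => (hH i j).2 x (hUU hx))
          (fun i x hx => hGH i x (hUU hx)) ?_
        rcases hGa with ⟨i, hi⟩ | ⟨c, hc1, hc2, hc3⟩
        · exact Or.inl ⟨i, fun x hx => hi x (hUU hx)⟩
        · refine Or.inr ⟨c, hc1, fun x hx => hc2 x (hUU hx), le_trans ?_ hc3⟩
          exact Finset.sum_le_sum fun i _ => measure_mono (image_mono hUU))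
    exact ⟨g, fun j => ⟨(hg j).1, C', (hg j).2⟩, hgs⟩

end Pool.Agent.Results.MP_ca0fc2_an.ComponentsOfCells
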