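import Mathlib
import Pool.Agent.Helper60.CB.Cell

/-!
# The corona problem on the ball of `ℂⁿ`: components of cells over resolvable families

`B` is the unit ball of `ℂⁿ`, `n` arbitrary. A *cell* at a boundary point `p` is the set of the
points `z ∈ B` within `ε` of `p` at which finitely many functions `u_1, …, u_L` differ by less than
`ε` from their values at some point `z₀`; the `u_l` are taken from *resolvable* sets of functions
(bounded functions of functions with affine fibres, and everything that can be resolved by iterated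
Whitney localisations along complex geodesics; for instance all bounded holomorphic functions on
which the rotations about some complex geodesic act norm-continuously).

`result`: for every family of corona data on `B`, the Bezout equations have solutions with a common
bound if and only if the data have a common lower bound and, for each boundary point `p`, there are
cells with uniform parameters such that on **each connected component** of each cell the data are
uniformly good: there are at most `1/ε` functions in the ideal of the data on this component (with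
coefficients bounded by `1/ε`) one of which is bounded below, or which are bounded below together
and whose ranges have small total area, or which are functions of one common holomorphic function
with values in the disc, as a corona datum of the disc.

The solutions on different components are not required to match, and there may be infinitely many
components. Proofs: `Pool.Agent.Helper60.CB`; area criterion by the Ahlfors-Beurling rearrangement
and Runge's theorem (`Comp`), functions of one variable by Carleson's theorem (`Disc`), localisation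
by the character method and the theorem on resolvable families of the starting files (`Cell`).
-/

set_option autoImplicit false

open MeasureTheory Metric Set Filter Topology
open scoped ENNReal Real

namespace Pool.Agent.Results.MP_ca0fc2_an.ComponentsOnTheBall

/-- `ℂⁿ` -/
abbrev V (n : ℕ) := EuclideanSpace ℂ (Fin n)

/-- `F` is holomorphic on the unit ball and bounded by `1`. -/
def HB {n : ℕ} (F : V n → ℂ) : Prop :=
  DifferentiableOn ℂ F (ball 0 1) ∧ ∀ z ∈ ball (0 : V n) 1, ‖F z‖ ≤ 1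

/-- `ψ` is a holomorphic map from the unit ball to the unit disc, and the fibre of `ψ` through any
point `z` is the part in the ball of the affine subspace `z + ker ψ'(z)`. -/
def HasAffineFibres {n : ℕ} (ψ : V n → ℂ) : Prop :=
  DifferentiableOn ℂ ψ (ball 0 1) ∧ (∀ z ∈ ball (0 : V n) 1, ‖ψ z‖ < 1) ∧
    ∀ z ∈ ball (0 : V n) 1, ∀ z' ∈ ball (0 : V n) 1, ψ z' = ψ z ↔ fderiv ℂ ψ z (z' - z) = 0

/-- `ψ` is an automorphism of the unit ball. -/
def IsAut {n : ℕ} (ψ : V n → V n) : Prop :=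
  DifferentiableOn ℂ ψ (ball 0 1) ∧ MapsTo ψ (ball 0 1) (ball 0 1) ∧ ∃ φ : V n → V n,
    DifferentiableOn ℂ φ (ball 0 1) ∧ MapsTo φ (ball 0 1) (ball 0 1) ∧
    ∀ z ∈ ball (0 : V n) 1, φ (ψ z) = z ∧ ψ (φ z) = z

/-- The automorphisms of the ball (`‖p‖ = 1`, `|a| < 1`) which translate the complex geodesic
through `0` and `p`: `⟨p, mv p a z⟩ = (⟨p, z⟩ + a) / (1 + conj a ⟨p, z⟩)`. -/
noncomputable def mv {n : ℕ} (p : V n) (a : ℂ) (z : V n) : V n :=
  (1 / (1 + starRingEnd ℂ a * inner ℂ p z)) •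
    (((inner ℂ p z : ℂ) + a) • p + ((√(1 - ‖a‖ ^ 2) : ℝ) : ℂ) • (z - (inner ℂ p z : ℂ) • p))

/-- Resolvable sets of functions. -/
inductive Resolvable {n : ℕ} : Set (V n → ℂ) → Prop
  /-- sets of functions `f ∘ ψ`, `|f| ≤ 1`, `ψ` with affine fibres -/
  | affine (ℱ : Set (V n → ℂ)) (h : ∀ F ∈ ℱ, ∃ (f : ℂ → ℂ) (ψ : V n → ℂ),
      DifferentiableOn ℂ f (ball 0 1) ∧ (∀ w ∈ ball (0 : ℂ) 1, ‖f w‖ ≤ 1) ∧ HasAffineFibres ψ ∧
      ∀ z ∈ ball (0 : V n) 1, F z = f (ψ z)) : Resolvable ℱ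
  /-- sets of functions which are uniformly asymptotic, on the Whitney cells at each `q` along some
  complex geodesic, to members of a resolvable set `ℋ q` -/
  | whitney (ℱ : Set (V n → ℂ)) (p : V n) (hp : ‖p‖ = 1) (ℋ : V n → Set (V n → ℂ))
      (hℋ : ∀ q, ‖q‖ = 1 → (inner ℂ p q : ℂ) = 0 → Resolvable (ℋ q))
      (r : V n → ℝ → ℝ) (hr : ∀ q ε, 0 < ε → 0 < r q ε)
      (h : ∀ F ∈ ℱ, HB F ∧ ∃ ψ : V n → V n, IsAut ψ ∧
        ∀ q : V n, ‖q‖ = 1 → (inner ℂ p q : ℂ) = 0 → ∀ a : ℂ, ‖a‖ < 1 → ∃ H ∈ ℋ q,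
          ∀ ε : ℝ, 0 < ε → ∀ z ∈ ball (0 : V n) 1, ‖z - q‖ < r q ε →
            ‖F (ψ (mv p a z)) - H z‖ ≤ ε) : Resolvable ℱ

/-- the Bezout equation for the functions `F j` has holomorphic solutions on `U` bounded by `C` -/
def SolvableOn {n N : ℕ} (U : Set (V n)) (F : Fin N → V n → ℂ) (C : ℝ) : Prop :=
  ∃ g : Fin N → V n → ℂ, (∀ j, DifferentiableOn ℂ (g j) U) ∧ (∀ j, ∀ z ∈ U, ‖g j z‖ ≤ C) ∧
    ∀ z ∈ U, ∑ j, F j z * g j z = 1

/-- `G` is in the ideal generated by the `F j` on `U`, with coefficients bounded by `C` -/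
def InIdeal {n N : ℕ} (U : Set (V n)) (C : ℝ) (F : Fin N → V n → ℂ) (G : V n → ℂ) : Prop :=
  ∃ H : Fin N → V n → ℂ, (∀ j, DifferentiableOn ℂ (H j) U ∧ ∀ z ∈ U, ‖H j z‖ ≤ C) ∧
    ∀ z ∈ U, G z = ∑ j, F j z * H j z

/-- one of the functions is bounded below on `U` -/
def BoundedBelow {n k : ℕ} (ε : ℝ) (U : Set (V n)) (G : Fin k → V n → ℂ) : Prop :=
  ∃ i, ∀ z ∈ U, ε ≤ ‖G i z‖

/-- `∑ |G i|² ≥ c` on `U`, and the sets `G i (U)` have total area at most `π (c - ε)` -/
def SmallAreas {n k : ℕ} (ε : ℝ) (U : Set (V n)) (G : Fin k → V n → ℂ) : Prop :=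
  ∃ c : ℝ, ε ≤ c ∧ (∀ z ∈ U, c ≤ ∑ i, ‖G i z‖ ^ 2) ∧
    ∑ i, volume (G i '' U) ≤ ENNReal.ofReal (π * (c - ε))

/-- the `G i` are functions `φ i ∘ h` of one holomorphic map `h` from `U` to the unit disc, where the
`φ i` are corona data on the disc -/
def OneVariable {n k : ℕ} (ε : ℝ) (U : Set (V n)) (G : Fin k → V n → ℂ) : Prop :=
  ∃ (h : V n → ℂ) (φ : Fin k → ℂ → ℂ), DifferentiableOn ℂ h U ∧ (∀ z ∈ U, ‖h z‖ < 1) ∧
    (∀ i, DifferentiableOn ℂ (φ i) (ball 0 1)) ∧ (∀ i, ∀ w ∈ ball (0 : ℂ) 1, ‖φ i w‖ ≤ 1 / ε) ∧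
    (∀ w ∈ ball (0 : ℂ) 1, ε ≤ ∑ i, ‖φ i w‖) ∧ ∀ i, ∀ z ∈ U, G i z = φ i (h z)

/-- the data `F` are good on `U`, with constant `ε` -/
def Good {n N : ℕ} (ε : ℝ) (U : Set (V n)) (F : Fin N → V n → ℂ) : Prop :=
  ∃ (k : ℕ) (G : Fin k → V n → ℂ), (k : ℝ) ≤ 1 / ε ∧ (∀ i, InIdeal U (1 / ε) F (G i)) ∧
    (BoundedBelow ε U G ∨ SmallAreas ε U G ∨ OneVariable ε U G)

/-- the cell of `z₀` near `p` defined by the functions `u l` -/
def Cell {n L : ℕ} (p : V n) (ε : ℝ) (u : Fin L → V n → ℂ) (z₀ : V n) : Set (V n) :=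
  {z | z ∈ ball (0 : V n) 1 ∩ ball p ε ∧ ∀ l, ‖u l z - u l z₀‖ < ε}

theorem aut_of {n : ℕ} {ψ : V n → V n} (h : IsAut ψ) :
    ∃ φ : V n → V n, Pool.Agent.TH310.Cor.Aut ψ φ := by
  obtain ⟨h1, h2, φ, h3, h4, h5⟩ := h
  exact ⟨φ, h1, h3, h2, h4, fun z hz => (h5 z hz).1, fun z hz => (h5 z hz).2⟩

theorem ad_iff {n : ℕ} {ψ : V n → ℂ} : HasAffineFibres ψ ↔ Pool.Agent.Y263.GF.AD ψ :=
  ⟨fun h => ⟨⟨h.1, h.2.2⟩, h.2.1⟩, fun h => ⟨h.1.1, h.2, h.1.2⟩⟩

theorem Resolvable.rs {n : ℕ} {ℱ : Set (V n → ℂ)} (h : Resolvable ℱ) :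
    Pool.Agent.R223.Crn.Rs ℱ := by
  induction h with
  | affine ℱ h =>
    refine Pool.Agent.R223.Crn.Rs.base _ fun F hF => ?_
    obtain ⟨f, ψ, h1, h2, h3, h4⟩ := h F hF
    exact ⟨f, ψ, h1, h2, ad_iff.1 h3, h4⟩
  | whitney ℱ p hp ℋ hℋ r hr h ih =>
    refine Pool.Agent.R223.Crn.Rs.whit _ p hp r hr ℋ ih fun F hF => ?_
    obtain ⟨h1, ψ, hψ, h2⟩ := h F hF
    obtain ⟨φ, hφ⟩ := aut_of hψ
    exact ⟨h1, ψ, φ, hφ, fun q hq hpq a ha => h2 q hq hpq a (mem_ball_zero_iff.1 ha)⟩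

/-- **The corona problem on the ball is local on the components of cells over resolvable
families**, uniformly for families of data. -/
theorem result (n N : ℕ) (I : Type) (F : I → Fin N → V n → ℂ) (hF : ∀ i j, HB (F i j)) :
    (∃ C : ℝ, ∀ i, SolvableOn (ball 0 1) (F i) C) ↔
      (∃ δ : ℝ, 0 < δ ∧ ∀ i, ∀ z ∈ ball (0 : V n) 1, δ ≤ ∑ j, ‖F i j z‖) ∧
      ∀ p : V n, ‖p‖ = 1 → ∃ (L : ℕ) (𝔉 : Fin L → Set (V n → ℂ)) (ε : ℝ),
        (∀ l, Resolvable (𝔉 l)) ∧ 0 < ε ∧ ∀ i, ∃ u : Fin L → V n → ℂ, (∀ l, u l ∈ 𝔉 l) ∧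
          ∀ z₀ ∈ ball (0 : V n) 1 ∩ ball p ε,
            Good ε (connectedComponentIn (Cell p ε u z₀) z₀) (F i) := by
  constructor
  · rintro ⟨C, hC⟩
    have hC1 : (0 : ℝ) < max C 1 := lt_max_of_lt_right one_pos
    refine ⟨⟨1 / max C 1, by positivity, fun i z hz => ?_⟩, fun p hp => ?_⟩
    · obtain ⟨g, -, g2, g3⟩ := hC i
      have h1 : (1 : ℝ) ≤ (∑ j, ‖F i j z‖) * max C 1 := by
        calc (1 : ℝ) = ‖∑ j, F i j z * g j z‖ := by rw [g3 z hz, norm_one]
          _ ≤ ∑ j, ‖F i j z * g j z‖ := norm_sum_le _ _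
          _ ≤ ∑ j, ‖F i j z‖ * max C 1 := by
              refine Finset.sum_le_sum fun j _ => ?_
              rw [norm_mul]
              exact mul_le_mul_of_nonneg_left ((g2 j z hz).trans (le_max_left _ _))
                (norm_nonneg _)
          _ = _ := by rw [Finset.sum_mul]
      rwa [div_le_iff₀ hC1]
    · refine ⟨0, fun l => l.elim0, 1 / max C 1, fun l => l.elim0, by positivity, fun i =>
        ⟨fun l => l.elim0, fun l => l.elim0, fun z₀ hz₀ => ?_⟩⟩
      obtain ⟨g, g1, g2, g3⟩ := hC i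
      have hsub : connectedComponentIn (Cell p (1 / max C 1) (fun l : Fin 0 =>
          (l.elim0 : V n → ℂ)) z₀) z₀ ⊆ ball 0 1 :=
        (connectedComponentIn_subset _ _).trans fun z hz => hz.1.1
      have h1 : 1 / (1 / max C 1) = max C 1 := one_div_one_div _
      refine ⟨1, fun _ _ => 1, ?_, fun _ => ⟨g, fun j => ⟨(g1 j).mono hsub, fun z hz => ?_⟩,
        fun z hz => (g3 z (hsub hz)).symm⟩, Or.inl ⟨0, fun z _ => ?_⟩⟩
      · rw [h1]
        exact_mod_cast le_max_right C 1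
      · rw [h1]
        exact (g2 j z (hsub hz)).trans (le_max_left _ _)
      · rw [norm_one, div_le_one hC1]
        exact le_max_right _ _
  · rintro ⟨⟨δ, hδ, hlow⟩, hloc⟩
    refine Pool.Agent.Helper60.CB.cell_res (F := F) hF hδ hlow fun p hp => ?_
    obtain ⟨L, 𝔉, ε, hR, hε, h⟩ := hloc p hp
    obtain ⟨Q, hQ, H⟩ := Pool.Agent.Helper60.CB.comp_all N hε
    refine ⟨L, 𝔉, ε, Q, fun l => (hR l).rs, hε, hQ, fun i => ?_⟩
    obtain ⟨u, hu, hg⟩ := h i
    refine ⟨u, hu, fun z₀ hz₀ => ?_⟩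
    have huB : ∀ l, DifferentiableOn ℂ (u l) (ball 0 1) := fun l => ((hR l).rs.hb _ (hu l)).1
    have hW : IsOpen (Cell p ε u z₀) := by
      have e : Cell p ε u z₀ = (ball (0 : V n) 1 ∩ ball p ε) ∩
          ⋂ l, ball (0 : V n) 1 ∩ (fun z => ‖u l z - u l z₀‖) ⁻¹' Iio ε := by
        ext z
        simp only [Cell, mem_inter_iff, mem_iInter, mem_preimage, mem_Iio]
        constructor
        · rintro ⟨h1, h2⟩
          exact ⟨h1, fun l => ⟨h1.1, h2 l⟩⟩
        · rintro ⟨h1, h2⟩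
          exact ⟨h1, fun l => (h2 l).2⟩
      rw [e]
      refine (isOpen_ball.inter isOpen_ball).inter (isOpen_iInter_of_finite fun l => ?_)
      exact (((huB l).continuousOn.sub continuousOn_const).norm).isOpen_inter_preimage
        isOpen_ball isOpen_Iio
    have hsub : connectedComponentIn (Cell p ε u z₀) z₀ ⊆ ball 0 1 :=
      (connectedComponentIn_subset _ _).trans fun z hz => hz.1.1
    obtain ⟨k, G, hk, hG, hA⟩ := hg z₀ hz₀
    exact H (V n) _ hW.connectedComponentIn isPreconnected_connectedComponentIn (F i)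
      (fun j => (hF i j).1.mono hsub) (fun j z hz => (hF i j).2 z (hsub hz)) ⟨k, G, hk, hG, hA⟩

end Pool.Agent.Results.MP_ca0fc2_an.ComponentsOnTheBall
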